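import Mathlib

/-!
# Ehrhart's volume conjecture: the algebraic part

Work over `ZMod 2`.  For a finite set `S` of exponents, we build a product `F` of `#S` polynomials
with exponents in `S`, whose leading exponent is the sum of `S` and whose order of vanishing at
`(1,…,1)` is large.
-/

set_option autoImplicit false

open MvPolynomial Finset
open scoped Pointwise

noncomputable section

namespace Pool.Agent.R264.Ehr

/-- polynomials in `d` variables over `ZMod 2` -/
abbrev P (d : ℕ) := MvPolynomial (Fin d) (ZMod 2)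

variable {d : ℕ}

/-- the expansion at `(1,…,1)` -/
def ex1 : P d →ₐ[ZMod 2] P d := aeval (fun i => X i + 1)

/-- the polynomials vanishing to order at least `j` at `(1,…,1)` -/
def ordI (j : ℕ) : Ideal (P d) := (idealOfVars (Fin d) (ZMod 2) ^ j).comap (ex1 (d := d))

lemma mem_ordI {j : ℕ} {f : P d} : f ∈ ordI j ↔ ex1 f ∈ idealOfVars (Fin d) (ZMod 2) ^ j := Iff.rfl

lemma ordI_zero (f : P d) : f ∈ ordI 0 := by
  rw [mem_ordI, pow_zero, Ideal.one_eq_top]; trivial

lemma ordI_mul {a b : ℕ} {f g : P d} (hf : f ∈ ordI a) (hg : g ∈ ordI b) :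
    f * g ∈ ordI (a + b) := by
  rw [mem_ordI] at *
  rw [map_mul, pow_add]
  exact Ideal.mul_mem_mul hf hg

lemma ordI_pow {a : ℕ} {f : P d} (hf : f ∈ ordI a) (k : ℕ) : f ^ k ∈ ordI (k * a) := by
  induction k with
  | zero => simpa using ordI_zero _
  | succ k ih =>
    rw [pow_succ, Nat.succ_mul]
    exact ordI_mul ih hf

lemma ordI_prod {ι : Type*} (s : Finset ι) (f : ι → P d) (k : ι → ℕ)
    (h : ∀ i ∈ s, f i ∈ ordI (k i)) : ∏ i ∈ s, f i ∈ ordI (∑ i ∈ s, k i) := by
  classical
  induction s using Finset.induction_on with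
  | empty => simpa using ordI_zero _
  | insert a s ha ih =>
    rw [Finset.prod_insert ha, Finset.sum_insert ha]
    exact ordI_mul (h a (Finset.mem_insert_self _ _))
      (ih fun i hi => h i (Finset.mem_insert_of_mem hi))

/-- exponents of degree less than `j` -/
def low (d j : ℕ) : Finset (Fin d →₀ ℕ) :=
  (Finset.range j).biUnion fun n => Finset.finsuppAntidiag (Finset.univ : Finset (Fin d)) n

lemma mem_low {j : ℕ} {a : Fin d →₀ ℕ} : a ∈ low d j ↔ Finsupp.degree a < j := by
  unfold low
  simp only [Finset.mem_biUnion, Finset.mem_range, Finset.mem_finsuppAntidiag]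
  constructor
  · rintro ⟨n, hn, h, -⟩
    rw [Finsupp.degree_eq_sum]
    have h' : ∑ i, a i = n := h
    omega
  · intro h
    refine ⟨Finsupp.degree a, h, ?_, Finset.subset_univ _⟩
    rw [Finsupp.degree_eq_sum]

lemma card_low (n j : ℕ) : (low (n + 1) j).card ≤ (j + n).choose (n + 1) := by
  unfold low
  refine Finset.card_biUnion_le.trans ?_
  have h : ∀ i, (Finset.finsuppAntidiag (Finset.univ : Finset (Fin (n + 1))) i).card =
      (i + n).choose n := by
    intro i
    rw [Finset.card_finsuppAntidiag_nat_eq_choose, Finset.card_univ, Fintype.card_fin]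
    have : n + 1 + i - 1 = i + n := by omega
    rw [this]
    exact (Nat.choose_symm_add).symm ▸ rfl
  simp_rw [h]
  rcases j with _ | j
  · simp
  · rw [Nat.sum_range_add_choose]
    have : j + 1 + n = j + n + 1 := by omega
    rw [this]

/-! ### leading exponents -/

/-- the lexicographic monomial order -/
abbrev mo (d : ℕ) : MonomialOrder (Fin d) := MonomialOrder.lex

/-- polynomials with exponents in `S`, vanishing to order at least `j` at `(1,…,1)` -/
def VV (S : Finset (Fin d →₀ ℕ)) (j : ℕ) : Submodule (ZMod 2) (P d) :=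
  restrictSupport (ZMod 2) (S : Set (Fin d →₀ ℕ)) ⊓ (ordI j).restrictScalars (ZMod 2)

lemma mem_VV {S : Finset (Fin d →₀ ℕ)} {j : ℕ} {f : P d} :
    f ∈ VV S j ↔ (∀ u ∈ f.support, u ∈ S) ∧ f ∈ ordI j := by
  unfold VV
  rw [Submodule.mem_inf, mem_restrictSupport_iff, Submodule.restrictScalars_mem]
  rfl

open Classical in
/-- leading exponents of `VV S j` -/
def LE (S : Finset (Fin d →₀ ℕ)) (j : ℕ) : Finset (Fin d →₀ ℕ) :=
  S.filter fun u => ∃ f ∈ VV S j, f ≠ 0 ∧ (mo d).degree f = u

instance finS (S : Finset (Fin d →₀ ℕ)) :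
    Module.Finite (ZMod 2) (restrictSupport (ZMod 2) (S : Set (Fin d →₀ ℕ))) :=
  Module.Finite.of_basis (basisRestrictSupport (ZMod 2) (S : Set (Fin d →₀ ℕ)))

lemma finrankS (S : Finset (Fin d →₀ ℕ)) :
    Module.finrank (ZMod 2) (restrictSupport (ZMod 2) (S : Set (Fin d →₀ ℕ))) = S.card := by
  rw [Module.finrank_eq_card_basis (basisRestrictSupport (ZMod 2) (S : Set (Fin d →₀ ℕ)))]
  simp

instance finV (S : Finset (Fin d →₀ ℕ)) (j : ℕ) : Module.Finite (ZMod 2) (VV S j) :=
  Submodule.finiteDimensional_of_le (S₂ := restrictSupport (ZMod 2) (S : Set (Fin d →₀ ℕ)))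
    inf_le_left

/-- restriction of the coefficients to a finite set of exponents -/
def res (T : Finset (Fin d →₀ ℕ)) : P d →ₗ[ZMod 2] (T → ZMod 2) :=
  LinearMap.pi fun t => MvPolynomial.lcoeff (ZMod 2) (t : Fin d →₀ ℕ)

lemma res_apply (T : Finset (Fin d →₀ ℕ)) (f : P d) (t : T) : res T f t = f.coeff t := rfl

lemma finrank_le_LE (S : Finset (Fin d →₀ ℕ)) (j : ℕ) :
    Module.finrank (ZMod 2) (VV S j) ≤ (LE S j).card := by
  have h1 : Function.Injective ((res (LE S j)).comp (VV S j).subtype) := by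
    rw [← LinearMap.ker_eq_bot, LinearMap.ker_eq_bot']
    rintro ⟨f, hf⟩ h
    by_contra hne
    have hf0 : f ≠ 0 := fun h0 => hne (Subtype.ext h0)
    have hm : (mo d).degree f ∈ f.support := (mo d).degree_mem_support hf0
    have hu : (mo d).degree f ∈ LE S j := by
      classical
      unfold LE
      rw [Finset.mem_filter]
      exact ⟨(mem_VV.1 hf).1 _ hm, f, hf, hf0, rfl⟩
    have h2 := congrFun h ⟨_, hu⟩
    rw [mem_support_iff] at hm
    exact hm h2
  have h2 := LinearMap.finrank_le_finrank_of_injective h1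
  rw [Module.finrank_fintype_fun_eq_card] at h2
  simpa using h2

lemma card_le_finrank (S : Finset (Fin d →₀ ℕ)) (j : ℕ) :
    S.card ≤ Module.finrank (ZMod 2) (VV S j) + (low d j).card := by
  let W := restrictSupport (ZMod 2) (S : Set (Fin d →₀ ℕ))
  let T : W →ₗ[ZMod 2] (low d j → ZMod 2) :=
    (res (low d j)).comp ((ex1 (d := d)).toLinearMap.comp W.subtype)
  have h1 := LinearMap.finrank_range_add_finrank_ker T
  have h2 : Module.finrank (ZMod 2) (LinearMap.range T) ≤ (low d j).card := by
    have := Submodule.finrank_le (LinearMap.range T)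
    rw [Module.finrank_fintype_fun_eq_card] at this
    simpa using this
  have h3 : Module.finrank (ZMod 2) (LinearMap.ker T) ≤ Module.finrank (ZMod 2) (VV S j) := by
    let g : LinearMap.ker T →ₗ[ZMod 2] VV S j :=
      LinearMap.codRestrict (VV S j) (W.subtype.comp (LinearMap.ker T).subtype) (by
        rintro ⟨⟨f, hf⟩, hk⟩
        rw [mem_VV]
        refine ⟨fun u hu => ((mem_restrictSupport_iff (ZMod 2)).1 hf) hu, ?_⟩
        rw [mem_ordI, mem_pow_idealOfVars_iff']
        intro x hx
        exact congrFun (LinearMap.mem_ker.1 hk) ⟨x, mem_low.2 hx⟩)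
    refine LinearMap.finrank_le_finrank_of_injective (f := g) ?_
    rintro ⟨⟨f, hf⟩, hk⟩ ⟨⟨f', hf'⟩, hk'⟩ h
    have : f = f' := congrArg Subtype.val h
    subst this
    rfl
  have h4 : Module.finrank (ZMod 2) W = S.card := finrankS S
  omega

end Pool.Agent.R264.Ehr
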