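import Pool.Agent.R264.Ehr.A1

set_option autoImplicit false

open MvPolynomial Finset
open scoped Pointwise

noncomputable section

namespace Pool.Agent.R264.Ehr

variable {d : ℕ}

lemma mem_LE {S : Finset (Fin d →₀ ℕ)} {j : ℕ} {u : Fin d →₀ ℕ} :
    u ∈ LE S j ↔ u ∈ S ∧ ∃ f ∈ VV S j, f ≠ 0 ∧ (mo d).degree f = u := by
  classical
  unfold LE
  rw [Finset.mem_filter]

lemma mem_LE_zero {S : Finset (Fin d →₀ ℕ)} {u : Fin d →₀ ℕ} (hu : u ∈ S) : u ∈ LE S 0 := by
  classical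
  refine mem_LE.2 ⟨hu, monomial u 1, mem_VV.2 ⟨?_, ordI_zero _⟩, ?_, ?_⟩
  · intro v hv
    have := support_monomial_subset hv
    rw [Finset.mem_singleton] at this
    exact this ▸ hu
  · simp
  · rw [MonomialOrder.degree_monomial]
    simp

open Classical in
/-- the largest order `≤ M` with leading exponent `u` -/
def kk (S : Finset (Fin d →₀ ℕ)) (M : ℕ) (u : Fin d →₀ ℕ) : ℕ :=
  Nat.findGreatest (fun j => u ∈ LE S j) M

lemma kk_spec {S : Finset (Fin d →₀ ℕ)} (M : ℕ) {u : Fin d →₀ ℕ} (hu : u ∈ S) :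
    u ∈ LE S (kk S M u) := by
  classical
  unfold kk
  exact Nat.findGreatest_spec (P := fun j => u ∈ LE S j) (Nat.zero_le M) (mem_LE_zero hu)

open Classical in
lemma card_le_kk (S : Finset (Fin d →₀ ℕ)) (M : ℕ) (u : Fin d →₀ ℕ) :
    ((Finset.range M).filter fun j => u ∈ LE S (j + 1)).card ≤ kk S M u := by
  have h : ((Finset.range M).filter fun j => u ∈ LE S (j + 1)) ⊆ Finset.range (kk S M u) := by
    intro j hj
    rw [Finset.mem_filter, Finset.mem_range] at hj
    rw [Finset.mem_range]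
    have : j + 1 ≤ kk S M u := Nat.le_findGreatest (P := fun j => u ∈ LE S j) (by omega) hj.2
    omega
  simpa using Finset.card_le_card h

lemma sum_LE_le (S : Finset (Fin d →₀ ℕ)) (M : ℕ) :
    ∑ j ∈ Finset.range M, (LE S (j + 1)).card ≤ ∑ u ∈ S, kk S M u := by
  classical
  calc ∑ j ∈ Finset.range M, (LE S (j + 1)).card
      = ∑ j ∈ Finset.range M, ∑ u ∈ S, if u ∈ LE S (j + 1) then 1 else 0 := by
        refine Finset.sum_congr rfl fun j _ => ?_
        rw [Finset.card_eq_sum_ones, ← Finset.sum_filter]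
        refine Finset.sum_congr ?_ fun _ _ => rfl
        ext u
        rw [Finset.mem_filter]
        exact ⟨fun h => ⟨(mem_LE.1 h).1, h⟩, fun h => h.2⟩
    _ = ∑ u ∈ S, ∑ j ∈ Finset.range M, if u ∈ LE S (j + 1) then 1 else 0 := Finset.sum_comm
    _ ≤ ∑ u ∈ S, kk S M u := by
        refine Finset.sum_le_sum fun u _ => ?_
        rw [← Finset.sum_filter, ← Finset.card_eq_sum_ones]
        exact card_le_kk S M u

lemma sum_choose (n M : ℕ) :
    ∑ j ∈ Finset.range M, (j + 1 + n).choose (n + 1) = (M + n + 1).choose (n + 2) := by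
  rcases M with _ | M
  · simp
  · have h : ∀ j, (j + 1 + n).choose (n + 1) = (j + (n + 1)).choose (n + 1) := fun j => by
      congr 1; omega
    simp_rw [h]
    rw [Nat.sum_range_add_choose]
    congr 1; omega

/-- the total order of vanishing -/
lemma total (n : ℕ) (S : Finset (Fin (n + 1) →₀ ℕ)) (M : ℕ) :
    M * S.card ≤ ∑ u ∈ S, kk S M u + (M + n + 1).choose (n + 2) := by
  have h1 : ∀ j, S.card ≤ (LE S (j + 1)).card + (j + 1 + n).choose (n + 1) := fun j =>
    (card_le_finrank S (j + 1)).trans (add_le_add (finrank_le_LE S (j + 1)) (card_low n (j + 1)))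
  have h2 : ∑ _j ∈ Finset.range M, S.card ≤
      ∑ j ∈ Finset.range M, ((LE S (j + 1)).card + (j + 1 + n).choose (n + 1)) :=
    Finset.sum_le_sum fun j _ => h1 j
  rw [Finset.sum_const, Finset.card_range, smul_eq_mul, Finset.sum_add_distrib, sum_choose] at h2
  exact h2.trans (add_le_add_left (sum_LE_le S M) _)

/-- the product `F` -/
theorem exists_F (n : ℕ) (S : Finset (Fin (n + 1) →₀ ℕ)) (M : ℕ) :
    ∃ (f : (Fin (n + 1) →₀ ℕ) → P (n + 1)) (W : ℕ),
      (∀ u ∈ S, ∀ v ∈ (f u).support, v ∈ S) ∧ (∏ u ∈ S, f u) ∈ ordI W ∧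
      M * S.card ≤ W + (M + n + 1).choose (n + 2) ∧ (∏ u ∈ S, f u) ≠ 0 ∧
      (mo (n + 1)).degree (∏ u ∈ S, f u) = ∑ u ∈ S, u := by
  classical
  have h : ∀ u : Fin (n + 1) →₀ ℕ, ∃ f : P (n + 1), u ∈ S →
      (f ∈ VV S (kk S M u) ∧ f ≠ 0 ∧ (mo (n + 1)).degree f = u) := by
    intro u
    by_cases hu : u ∈ S
    · obtain ⟨f, hf⟩ := (mem_LE.1 (kk_spec M hu)).2
      exact ⟨f, fun _ => hf⟩
    · exact ⟨0, fun h => absurd h hu⟩
  choose f hf using h
  refine ⟨f, ∑ u ∈ S, kk S M u, fun u hu => (mem_VV.1 (hf u hu).1).1,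
    ordI_prod S f _ fun u hu => (mem_VV.1 (hf u hu).1).2, total n S M,
    Finset.prod_ne_zero_iff.2 fun u hu => (hf u hu).2.1, ?_⟩
  rw [MonomialOrder.degree_prod fun u hu => (hf u hu).2.1]
  exact Finset.sum_congr rfl fun u hu => (hf u hu).2.2

end Pool.Agent.R264.Ehr
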