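import Pool.Agent.R264.Ehr.A2

/-!
# The Frobenius functional

A polynomial vanishing to order more than `d (q - 1)` at `(1,…,1)`, `q = 2 ^ e`, has vanishing sums
of coefficients over the residue classes of exponents modulo `q`.
-/

set_option autoImplicit false

open MvPolynomial Finset
open scoped Pointwise

noncomputable section

namespace Pool.Agent.R264.Ehr

variable {d : ℕ}

/-- the group algebra of `(ℤ/q)^d` -/
abbrev GA (d q : ℕ) := AddMonoidAlgebra (ZMod 2) (Fin d → ZMod q)

instance charGA (d q : ℕ) : CharP (GA d q) 2 :=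
  charP_of_injective_algebraMap (FaithfulSMul.algebraMap_injective (ZMod 2) (GA d q)) 2

/-- the variable `z_i` in the group algebra -/
def zz (d q : ℕ) (i : Fin d) : GA d q := AddMonoidAlgebra.single (Pi.single i 1) 1

/-- reduction -/
def psi (d q : ℕ) : P d →ₐ[ZMod 2] GA d q := aeval (zz d q)

/-- reduction, in the coordinates at `(1,…,1)` -/
def psi' (d q : ℕ) : P d →ₐ[ZMod 2] GA d q := aeval (fun i => zz d q i + 1)

/-- reduction of exponents -/
def red (q : ℕ) (v : Fin d →₀ ℕ) : Fin d → ZMod q := fun i => (v i : ZMod q)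

lemma zz_pow (d q : ℕ) (i : Fin d) (k : ℕ) :
    zz d q i ^ k = AddMonoidAlgebra.single (Pi.single i (k : ZMod q)) 1 := by
  unfold zz
  rw [AddMonoidAlgebra.single_pow, one_pow]
  congr 1
  ext j
  by_cases h : j = i
  · subst h; simp
  · simp [h]

lemma prod_single {ι : Type*} (s : Finset ι) {q : ℕ} (g : ι → Fin d → ZMod q) :
    ∏ i ∈ s, (AddMonoidAlgebra.single (g i) (1 : ZMod 2) : GA d q) =
      AddMonoidAlgebra.single (∑ i ∈ s, g i) 1 := by
  classical
  induction s using Finset.induction_on with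
  | empty => simp [AddMonoidAlgebra.one_def]
  | insert a s ha ih =>
    rw [Finset.prod_insert ha, Finset.sum_insert ha, ih, AddMonoidAlgebra.single_mul_single,
      one_mul]

lemma psi_monomial (q : ℕ) (v : Fin d →₀ ℕ) (a : ZMod 2) :
    psi d q (monomial v a) = AddMonoidAlgebra.single (red q v) a := by
  unfold psi
  rw [aeval_monomial, Finsupp.prod_fintype _ _ (fun i => pow_zero _)]
  simp_rw [zz_pow]
  rw [prod_single]
  have h : ∑ i, Pi.single i ((v i : ℕ) : ZMod q) = red q v := by
    ext j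
    rw [Finset.sum_apply]
    simp [red, Pi.single_apply]
  rw [h, AddMonoidAlgebra.coe_algebraMap, Function.comp_apply, AddMonoidAlgebra.single_mul_single]
  simp

lemma psi_ex1 (q : ℕ) (f : P d) : psi' d q (ex1 f) = psi d q f := by
  have h : (psi' d q).comp ex1 = psi d q := by
    apply MvPolynomial.algHom_ext
    intro i
    simp only [AlgHom.comp_apply, ex1, psi', psi, aeval_X, map_add, map_one]
    rw [add_assoc, CharTwo.add_self_eq_zero, add_zero]
  rw [← h]; rfl

lemma zz_nil (d e : ℕ) (i : Fin d) : (zz d (2 ^ e) i + 1) ^ (2 ^ e) = 0 := by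
  rw [add_pow_char_pow, zz_pow, one_pow]
  have : ((2 ^ e : ℕ) : ZMod (2 ^ e)) = 0 := ZMod.natCast_self _
  rw [this, Pi.single_zero, ← AddMonoidAlgebra.one_def]
  exact CharTwo.add_self_eq_zero _

lemma psi'_kill (e W : ℕ) (p : P d) (hp : p ∈ idealOfVars (Fin d) (ZMod 2) ^ W)
    (hW : d * (2 ^ e - 1) < W) : psi' d (2 ^ e) p = 0 := by
  rw [mem_pow_idealOfVars_iff] at hp
  rw [p.as_sum, map_sum]
  refine Finset.sum_eq_zero fun a ha => ?_
  unfold psi'
  rw [aeval_monomial, Finsupp.prod_fintype _ _ (fun i => pow_zero _)]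
  have h1 := hp a ha
  rw [Finsupp.degree_eq_sum] at h1
  have h2 : ∃ i, 2 ^ e ≤ a i := by
    by_contra hcon
    push Not at hcon
    have : ∑ i, a i ≤ ∑ _i : Fin d, (2 ^ e - 1) :=
      Finset.sum_le_sum fun i _ => by have := hcon i; omega
    rw [Finset.sum_const, Finset.card_univ, Fintype.card_fin, smul_eq_mul] at this
    omega
  obtain ⟨i, hi⟩ := h2
  rw [Finset.prod_eq_zero (Finset.mem_univ i), mul_zero]
  obtain ⟨c, hc⟩ := Nat.exists_eq_add_of_le hi
  rw [hc, pow_add, zz_nil, zero_mul]

open Classical in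
lemma psi_coeff (q : ℕ) (F : P d) (c : Fin d → ZMod q) :
    (psi d q F).coeff c = ∑ v ∈ F.support, if red q v = c then F.coeff v else 0 := by
  conv_lhs => rw [F.as_sum, map_sum]
  simp_rw [psi_monomial]
  rw [AddMonoidAlgebra.coeff_sum, Finsupp.finsetSum_apply]
  refine Finset.sum_congr rfl fun v _ => ?_
  rw [AddMonoidAlgebra.coeff_single, Finsupp.single_apply]

/-- **No high order of vanishing** if the leading exponent is alone in its residue class. -/
theorem order_le (e W : ℕ) (F : P d) (hF : F ∈ ordI W) (U : Fin d →₀ ℕ) (hU : F.coeff U ≠ 0)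
    (h : ∀ v ∈ F.support, red (2 ^ e) v = red (2 ^ e) U → v = U) : W ≤ d * (2 ^ e - 1) := by
  classical
  by_contra hcon
  push Not at hcon
  have h1 : psi d (2 ^ e) F = 0 := by
    rw [← psi_ex1]
    exact psi'_kill e W _ hF hcon
  have h2 := psi_coeff (2 ^ e) F (red (2 ^ e) U)
  rw [h1] at h2
  have h3 : (∑ v ∈ F.support, if red (2 ^ e) v = red (2 ^ e) U then F.coeff v else 0) =
      F.coeff U := by
    rw [Finset.sum_eq_single U]
    · simp
    · intro b hb hne
      rw [if_neg fun h' => hne (h b hb h')]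
    · intro hn
      exact absurd (mem_support_iff.2 hU) hn
  rw [h3] at h2
  exact hU (by simpa using h2.symm)

end Pool.Agent.R264.Ehr
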