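import Pool.Agent.R264.Ehr.A3

/-!
# The discrete inequality
-/

set_option autoImplicit false

open MvPolynomial Finset
open scoped Pointwise

noncomputable section

namespace Pool.Agent.R264.Ehr

variable {d : ℕ}

/-- an exponent as a real point -/
def io (v : Fin d →₀ ℕ) : Fin d → ℝ := fun i => (v i : ℝ)

lemma io_add (a b : Fin d →₀ ℕ) : io (a + b) = io a + io b := by
  ext i; simp [io]

lemma io_zero : io (0 : Fin d →₀ ℕ) = 0 := by
  ext i; simp [io]

lemma supp_mul {C : Set (Fin d → ℝ)} (hC : Convex ℝ C) {f g : P d} {a b : ℕ}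
    (hf : ∀ v ∈ f.support, io v ∈ (a : ℝ) • C) (hg : ∀ v ∈ g.support, io v ∈ (b : ℝ) • C) :
    ∀ v ∈ (f * g).support, io v ∈ ((a + b : ℕ) : ℝ) • C := by
  classical
  intro v hv
  have h1 := support_mul f g hv
  rw [Finset.mem_add] at h1
  obtain ⟨x, hx, y, hy, rfl⟩ := h1
  rw [io_add]
  push_cast
  rw [hC.add_smul (Nat.cast_nonneg a) (Nat.cast_nonneg b)]
  exact Set.add_mem_add (hf x hx) (hg y hy)

lemma supp_one {C : Set (Fin d → ℝ)} (hne : C.Nonempty) :
    ∀ v ∈ (1 : P d).support, io v ∈ ((0 : ℕ) : ℝ) • C := by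
  intro v hv
  have : v = 0 := by
    have h := MvPolynomial.support_monomial_subset (R := ZMod 2) (s := (0 : Fin d →₀ ℕ)) (a := 1)
      (by simpa using hv)
    simpa using h
  subst this
  rw [io_zero, Nat.cast_zero, Set.zero_smul_set hne]
  simp

lemma supp_prod {ι : Type*} {C : Set (Fin d → ℝ)} (hC : Convex ℝ C) (hne : C.Nonempty)
    (s : Finset ι) (f : ι → P d) (h : ∀ i ∈ s, ∀ v ∈ (f i).support, io v ∈ C) :
    ∀ v ∈ (∏ i ∈ s, f i).support, io v ∈ ((s.card : ℕ) : ℝ) • C := by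
  classical
  induction s using Finset.induction_on with
  | empty => rw [Finset.prod_empty, Finset.card_empty]; exact supp_one hne
  | insert a s ha ih =>
    rw [Finset.prod_insert ha, Finset.card_insert_of_notMem ha, add_comm s.card 1]
    refine supp_mul hC ?_ (ih fun i hi => h i (Finset.mem_insert_of_mem hi))
    simpa using h a (Finset.mem_insert_self _ _)

lemma supp_pow {C : Set (Fin d → ℝ)} (hC : Convex ℝ C) (hne : C.Nonempty) {f : P d} {a : ℕ}
    (hf : ∀ v ∈ f.support, io v ∈ (a : ℝ) • C) (k : ℕ) :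
    ∀ v ∈ (f ^ k).support, io v ∈ ((k * a : ℕ) : ℝ) • C := by
  induction k with
  | zero => rw [pow_zero, zero_mul]; exact supp_one hne
  | succ k ih =>
    rw [pow_succ, Nat.succ_mul]
    exact supp_mul hC ih hf

/-- the discrete inequality for exponents in `ℕ^d` -/
theorem disc_nat (n : ℕ) (S : Finset (Fin (n + 1) →₀ ℕ)) (C : Set (Fin (n + 1) → ℝ))
    (hC : Convex ℝ C) (hne : C.Nonempty) (hSC : ∀ u ∈ S, io u ∈ C) (M e k : ℕ)
    (h : ∀ v : Fin (n + 1) →₀ ℕ, io v ∈ ((k * S.card : ℕ) : ℝ) • C →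
      red (2 ^ e) v = red (2 ^ e) (k • ∑ u ∈ S, u) → v = k • ∑ u ∈ S, u) :
    k * (M * S.card) ≤ (n + 1) * (2 ^ e - 1) + k * (M + n + 1).choose (n + 2) := by
  obtain ⟨f, W, h1, h2, h3, h4, h5⟩ := exists_F n S M
  have h6 : ∀ v ∈ ((∏ u ∈ S, f u) ^ k).support, io v ∈ ((k * S.card : ℕ) : ℝ) • C :=
    supp_pow hC hne (supp_prod hC hne S f fun u hu v hv => hSC v (h1 u hu v hv)) k
  have h7 : ((∏ u ∈ S, f u) ^ k).coeff (k • ∑ u ∈ S, u) ≠ 0 := by
    rw [← h5, MonomialOrder.coeff_pow_nsmul_degree]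
    exact pow_ne_zero _ ((mo (n + 1)).leadingCoeff_ne_zero_iff.2 h4)
  have h8 := order_le e (k * W) _ (ordI_pow h2 k) _ h7 fun v hv hr => h v (h6 v hv) hr
  calc k * (M * S.card) ≤ k * (W + (M + n + 1).choose (n + 2)) := Nat.mul_le_mul_left _ h3
    _ = k * W + k * (M + n + 1).choose (n + 2) := by ring
    _ ≤ _ := add_le_add_left h8 _

/-- an integer point as a real point -/
def ir (v : Fin d → ℤ) : Fin d → ℝ := fun i => (v i : ℝ)

/-- translation of exponents -/
def sh (T : ℕ) (u : Fin d → ℤ) : Fin d →₀ ℕ :=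
  Finsupp.equivFunOnFinite.symm fun i => (u i + T).toNat

lemma sh_apply {T : ℕ} {u : Fin d → ℤ} {i : Fin d} (h : 0 ≤ u i + T) :
    ((sh T u i : ℕ) : ℤ) = u i + T := by
  simp [sh, h]

/-- **The discrete inequality.** -/
theorem disc (n : ℕ) (S : Finset (Fin (n + 1) → ℤ)) (C : Set (Fin (n + 1) → ℝ))
    (hC : Convex ℝ C) (hne : C.Nonempty) (hSC : ∀ u ∈ S, ir u ∈ C) (M e k : ℕ)
    (h : ∀ w : Fin (n + 1) → ℤ, (k : ℝ) • (∑ u ∈ S, ir u) + (2 ^ e : ℝ) • ir w ∈
      ((k * S.card : ℕ) : ℝ) • C → w = 0) :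
    k * (M * S.card) ≤ (n + 1) * (2 ^ e - 1) + k * (M + n + 1).choose (n + 2) := by
  classical
  -- the translation
  let T : ℕ := ∑ u ∈ S, ∑ i, (u i).natAbs
  have hT : ∀ u ∈ S, ∀ i, 0 ≤ u i + T := by
    intro u hu i
    have h1 : (u i).natAbs ≤ T :=
      (Finset.single_le_sum (f := fun i => (u i).natAbs) (fun _ _ => Nat.zero_le _)
        (Finset.mem_univ i)).trans
        (Finset.single_le_sum (f := fun u : Fin (n + 1) → ℤ => ∑ i, (u i).natAbs)
          (fun _ _ => Nat.zero_le _) hu)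
    omega
  have hinj : Set.InjOn (sh T) (S : Set (Fin (n + 1) → ℤ)) := by
    intro u hu v hv huv
    ext i
    have h1 := sh_apply (hT u hu i)
    have h2 := sh_apply (hT v hv i)
    rw [huv] at h1
    omega
  have hio : ∀ u ∈ S, io (sh T u) = ir u + fun _ => (T : ℝ) := by
    intro u hu
    ext i
    have h1 := sh_apply (hT u hu i)
    have h2 : ((sh T u i : ℕ) : ℝ) = (u i : ℝ) + T := by exact_mod_cast h1
    exact h2
  set t : Fin (n + 1) → ℝ := fun _ => (T : ℝ) with ht
  have hcard : (S.image (sh T)).card = S.card := Finset.card_image_of_injOn hinj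
  have hsum : ∑ u ∈ S.image (sh T), u = ∑ u ∈ S, sh T u := Finset.sum_image hinj
  have hsumi : ∀ i, (((∑ u ∈ S, sh T u) i : ℕ) : ℝ) = (∑ u ∈ S, ir u) i + S.card * T := by
    intro i
    rw [Finsupp.finsetSum_apply, Finset.sum_apply]
    push_cast
    rw [← nsmul_eq_mul, ← Finset.sum_const, ← Finset.sum_add_distrib]
    exact Finset.sum_congr rfl fun u hu => congrFun (hio u hu) i
  obtain ⟨Q, hQ⟩ : ∃ Q, Q = ∑ u ∈ S, sh T u := ⟨_, rfl⟩
  rw [← hQ] at hsum hsumi
  have key := disc_nat n (S.image (sh T)) ((fun x => x + t) '' C)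
    (hC.translate_preimage_left (-t) |> fun h' => by
      have : (fun x => x + t) '' C = (fun x => x + -t) ⁻¹' C := by
        ext x
        constructor
        · rintro ⟨y, hy, rfl⟩
          simpa using hy
        · intro hx
          exact ⟨x + -t, hx, by simp⟩
      rw [this]; exact h') (hne.image _) (by
      intro v hv
      rw [Finset.mem_image] at hv
      obtain ⟨u, hu, rfl⟩ := hv
      exact ⟨ir u, hSC u hu, (hio u hu).symm⟩) M e k (by
      intro v hv hr
      rw [hcard] at hv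
      rw [hsum] at hr ⊢
      -- the integer point `w`
      have h1 : ∀ i, ∃ w : ℤ, (v i : ℤ) = ((k • Q) i : ℕ) + 2 ^ e * w := by
        intro i
        have h2 := congrFun hr i
        unfold red at h2
        have h3 : (((v i : ℤ)) : ZMod (2 ^ e)) = ((((k • Q) i : ℕ) : ℤ) : ZMod (2 ^ e)) := by
          exact_mod_cast h2
        rw [ZMod.intCast_eq_intCast_iff_dvd_sub] at h3
        obtain ⟨c, hc⟩ := h3
        refine ⟨-c, ?_⟩
        push_cast at hc ⊢
        linarith
      choose w hw using h1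
      have h4 : w = 0 := by
        apply h
        obtain ⟨_, ⟨y, hy, rfl⟩, hy2⟩ := hv
        refine ⟨y, hy, ?_⟩
        ext i
        have h5 := congrFun hy2 i
        have h6 : ((v i : ℕ) : ℝ) = (((k • Q) i : ℕ) : ℝ) + 2 ^ e * w i := by
          exact_mod_cast hw i
        rw [Finsupp.smul_apply, smul_eq_mul] at h6
        push_cast at h6
        have h7 := hsumi i
        have h8 : io v i = (v i : ℝ) := rfl
        simp only [Pi.smul_apply, Pi.add_apply, smul_eq_mul, ht, h8] at h5 ⊢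
        have h9 : ir w i = (w i : ℝ) := rfl
        rw [h9]
        rw [h6, h7] at h5
        push_cast at h5 ⊢
        linarith
      ext i
      have h5 := hw i
      rw [h4] at h5
      simp only [Pi.zero_apply, mul_zero, add_zero] at h5
      exact_mod_cast h5)
  rwa [hcard] at key

end Pool.Agent.R264.Ehr
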