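import Pool.Agent.R264.Ehr.A4

/-!
# The inequality `m N ≤ C((d+1)m + d, d+1)` and lattice point asymptotics
-/

set_option autoImplicit false

open Finset
open scoped Pointwise

noncomputable section

namespace Pool.Agent.R264.Ehr

variable {d : ℕ}

/-- **The inequality for lattice points.** `d = n + 1`. -/
theorem latt (n : ℕ) (K C : Set (Fin (n + 1) → ℝ)) (hK : Convex ℝ (interior K))
    (h0 : (0 : Fin (n + 1) → ℝ) ∈ interior K)
    (hlat : ∀ w : Fin (n + 1) → ℤ, ir w ∈ interior K → w = 0)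
    (hC : Convex ℝ C) (hne : C.Nonempty) (m : ℕ) (hm : 0 < m)
    (S : Finset (Fin (n + 1) → ℤ)) (hS : S.Nonempty) (hSC : ∀ u ∈ S, (m : ℝ)⁻¹ • ir u ∈ C)
    (hc : ∀ x ∈ C, x - ((S.card * m : ℕ) : ℝ)⁻¹ • ∑ u ∈ S, ir u ∈ interior K) :
    m * S.card ≤ ((n + 2) * m + n + 1).choose (n + 2) := by
  set N := S.card with hN
  have hNpos : 0 < N := Finset.card_pos.2 hS
  have hmR : (0 : ℝ) < m := by exact_mod_cast hm
  have hNR : (0 : ℝ) < N := by exact_mod_cast hNpos
  set B := ((n + 2) * m + n + 1).choose (n + 2) with hB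
  have key : ∀ e : ℕ, (2 ^ e / (N * m)) * ((n + 2) * m * N) ≤
      (n + 1) * (2 ^ e - 1) + (2 ^ e / (N * m)) * B := by
    intro e
    set k := 2 ^ e / (N * m) with hk
    have hkle : k * (N * m) ≤ 2 ^ e := Nat.div_mul_le_self _ _
    refine disc n S ((m : ℝ) • C) (hC.smul _) hne.smul_set ?_ ((n + 2) * m) e k ?_
    · intro u hu
      exact ⟨_, hSC u hu, by simp only [smul_smul]; rw [mul_inv_cancel₀ hmR.ne', one_smul]⟩
    · intro w hw
      apply hlat
      obtain ⟨_, ⟨x, hx, rfl⟩, hy⟩ := hw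
      simp only at hy
      have h2e : (0 : ℝ) < 2 ^ e := by positivity
      have e1 : ir w = ((k * (N * m) : ℕ) / 2 ^ e : ℝ) •
          (x - ((N * m : ℕ) : ℝ)⁻¹ • ∑ u ∈ S, ir u) := by
        have h3 : (2 ^ e : ℝ) • ir w = ((k * N : ℕ) : ℝ) • ((m : ℝ) • x) -
            (k : ℝ) • ∑ u ∈ S, ir u := by
          rw [hy]; simp
        have h4 : ir w = (2 ^ e : ℝ)⁻¹ • ((2 ^ e : ℝ) • ir w) := by
          rw [smul_smul, inv_mul_cancel₀ h2e.ne', one_smul]
        rw [h4, h3, smul_sub, smul_sub, smul_smul, smul_smul, smul_smul, smul_smul]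
        push_cast
        congr 2
        · field_simp
        · field_simp
      rw [e1]
      refine hK.smul_mem_of_zero_mem h0 (hc x hx) ⟨by positivity, ?_⟩
      rw [div_le_one h2e]
      exact_mod_cast hkle
  by_contra hcon
  push Not at hcon
  -- choose `e` large
  set e := (n + 1) * (N * m) * (N * m) with he
  set k := 2 ^ e / (N * m) with hk
  have hNm : 0 < N * m := Nat.mul_pos hNpos hm
  have h1 := key e
  rw [← hk] at h1
  have h2 : (n + 1) * (N * m) ≤ k := by
    rw [hk, Nat.le_div_iff_mul_le hNm]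
    exact Nat.lt_two_pow_self.le
  have h3 : 2 ^ e < (k + 1) * (N * m) := by
    have := Nat.lt_div_mul_add (a := 2 ^ e) hNm
    rw [← hk] at this
    nlinarith
  have h4 : B + 1 ≤ m * N := hcon
  have h5 : k * ((n + 1) * (N * m) + (B + 1)) ≤ k * ((n + 2) * m * N) :=
    Nat.mul_le_mul_left _ (by nlinarith)
  have h6 : (n + 1) * (2 ^ e - 1) ≤ (n + 1) * ((k + 1) * (N * m) - 1) :=
    Nat.mul_le_mul_left _ (by omega)
  have h7 : (n + 1) * ((k + 1) * (N * m) - 1) + (n + 1) = (n + 1) * ((k + 1) * (N * m)) := by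
    have : 1 ≤ (k + 1) * (N * m) := Nat.mul_pos (Nat.succ_pos k) hNm
    rw [Nat.mul_sub, mul_one]
    exact Nat.sub_add_cancel (Nat.le_mul_of_pos_right _ this)
  have h8 : k * ((n + 1) * (N * m) + (B + 1)) + (n + 1) ≤
      (n + 1) * ((k + 1) * (N * m)) + k * B := by
    omega
  nlinarith

end Pool.Agent.R264.Ehr
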