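import Pool.Agent.R264.Ehr.A5

/-!
# Lattice point asymptotics
-/

set_option autoImplicit false

open Finset MeasureTheory Filter Topology
open scoped Pointwise

noncomputable section

namespace Pool.Agent.R264.Ehr

variable {d : ℕ}

/-- the lattice `ℤ^d` in `ℝ^d` -/
abbrev LL (d : ℕ) : Submodule ℤ (Fin d → ℝ) :=
  Submodule.span ℤ (Set.range (Pi.basisFun ℝ (Fin d)))

lemma ir_inj : Function.Injective (ir (d := d)) := by
  intro u v h
  ext i
  have h' : (u i : ℝ) = v i := congrFun h i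
  exact_mod_cast h'

lemma finLL (C : Set (Fin d → ℝ)) (hb : Bornology.IsBounded C) (m : ℕ) (hm : 0 < m) :
    (C ∩ (m : ℝ)⁻¹ • (LL d : Set (Fin d → ℝ))).Finite := by
  have hm' : (m : ℝ) ≠ 0 := by exact_mod_cast hm.ne'
  have h := ZSpan.setFinite_inter ((Pi.basisFun ℝ (Fin d)).isUnitSMul
    (w := fun _ => (m : ℝ)⁻¹) (fun _ => (inv_ne_zero hm').isUnit)) hb
  have e : (m : ℝ)⁻¹ • (LL d : Set (Fin d → ℝ)) = (Submodule.span ℤ (Set.range
      ((Pi.basisFun ℝ (Fin d)).isUnitSMul (w := fun _ => (m : ℝ)⁻¹)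
        (fun _ => (inv_ne_zero hm').isUnit))) : Set (Fin d → ℝ)) := by
    rw [← ZSpan.smul _ (inv_ne_zero hm')]
    rfl
  rw [e]; exact h

lemma mem_LL {m : ℕ} (hm : 0 < m) {x : Fin d → ℝ} :
    x ∈ (m : ℝ)⁻¹ • (LL d : Set (Fin d → ℝ)) ↔ ∃ u : Fin d → ℤ, x = (m : ℝ)⁻¹ • ir u := by
  have hm' : (m : ℝ) ≠ 0 := by exact_mod_cast hm.ne'
  have : NeZero m := ⟨hm.ne'⟩
  have h := BoxIntegral.unitPartition.mem_smul_span_iff (n := m) (v := x)
  have h' : x ∈ (m : ℝ)⁻¹ • (LL d : Set (Fin d → ℝ)) ↔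
    ∀ i, (m : ℝ) * x i ∈ Set.range (algebraMap ℤ ℝ) := h
  rw [h']
  constructor
  · intro hx
    choose u hu using hx
    refine ⟨u, ?_⟩
    ext i
    have := hu i
    simp only [Pi.smul_apply, smul_eq_mul, ir]
    have h3 : (u i : ℝ) = m * x i := this
    rw [h3]; field_simp
  · rintro ⟨u, rfl⟩ i
    refine ⟨u i, ?_⟩
    simp only [Pi.smul_apply, smul_eq_mul, ir]
    field_simp
    rfl

/-- the set of lattice points of `m C` -/
def sset (C : Set (Fin d → ℝ)) (m : ℕ) : Set (Fin d → ℤ) := {u | (m : ℝ)⁻¹ • ir u ∈ C}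

lemma sfin (C : Set (Fin d → ℝ)) (hb : Bornology.IsBounded C) (m : ℕ) (hm : 0 < m) :
    (sset C m).Finite := by
  have hm' : (m : ℝ) ≠ 0 := by exact_mod_cast hm.ne'
  have hinj : Function.Injective fun u : Fin d → ℤ => (m : ℝ)⁻¹ • ir u := by
    intro u v h
    exact ir_inj (smul_right_injective _ (inv_ne_zero hm') h)
  refine ((finLL C hb m hm).preimage hinj.injOn).subset fun u hu => ?_
  exact ⟨hu, (mem_LL hm).2 ⟨u, rfl⟩⟩

open Classical in
/-- the finite set of lattice points of `m C` -/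
def SS (C : Set (Fin d → ℝ)) (m : ℕ) : Finset (Fin d → ℤ) :=
  if h : (sset C m).Finite then h.toFinset else ∅

lemma mem_SS {C : Set (Fin d → ℝ)} (hb : Bornology.IsBounded C) {m : ℕ} (hm : 0 < m)
    {u : Fin d → ℤ} : u ∈ SS C m ↔ (m : ℝ)⁻¹ • ir u ∈ C := by
  unfold SS
  rw [dif_pos (sfin C hb m hm), Set.Finite.mem_toFinset]
  rfl

lemma tsum_SS {C : Set (Fin d → ℝ)} (hb : Bornology.IsBounded C) {m : ℕ} (hm : 0 < m)
    (F : (Fin d → ℝ) → ℝ) :
    ∑' x : ↑(C ∩ (m : ℝ)⁻¹ • (LL d : Set (Fin d → ℝ))), F x =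
      ∑ u ∈ SS C m, F ((m : ℝ)⁻¹ • ir u) := by
  have hm' : (m : ℝ) ≠ 0 := by exact_mod_cast hm.ne'
  let g : SS C m → ↑(C ∩ (m : ℝ)⁻¹ • (LL d : Set (Fin d → ℝ))) := fun u =>
    ⟨(m : ℝ)⁻¹ • ir (u : Fin d → ℤ), (mem_SS hb hm).1 u.2, (mem_LL hm).2 ⟨_, rfl⟩⟩
  have hg : Function.Bijective g := by
    constructor
    · rintro ⟨u, hu⟩ ⟨v, hv⟩ h
      have h1 : (m : ℝ)⁻¹ • ir u = (m : ℝ)⁻¹ • ir v := congrArg Subtype.val h
      exact Subtype.ext (ir_inj (smul_right_injective _ (inv_ne_zero hm') h1))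
    · rintro ⟨x, hx, hx'⟩
      obtain ⟨u, rfl⟩ := (mem_LL hm).1 hx'
      exact ⟨⟨u, (mem_SS hb hm).2 hx⟩, rfl⟩
  rw [← (Equiv.ofBijective g hg).tsum_eq (fun x => F x), tsum_fintype]
  exact Finset.sum_coe_sort (SS C m) fun u => F ((m : ℝ)⁻¹ • ir u)

lemma tendsto_sum {C : Set (Fin d → ℝ)} (hcpt : IsCompact C) (hC : Convex ℝ C)
    (F : (Fin d → ℝ) → ℝ) (hF : Continuous F) :
    Tendsto (fun m : ℕ => (∑ u ∈ SS C m, F ((m : ℝ)⁻¹ • ir u)) / (m : ℝ) ^ d) atTop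
      (𝓝 (∫ x in C, F x)) := by
  have h := tendsto_tsum_div_pow_atTop_integral C F hF hcpt.isBounded hcpt.measurableSet
    (hC.addHaar_frontier volume)
  rw [Fintype.card_fin] at h
  refine h.congr' ?_
  filter_upwards [eventually_gt_atTop 0] with m hm
  rw [← tsum_SS hcpt.isBounded hm F]

lemma tendsto_card {C : Set (Fin d → ℝ)} (hcpt : IsCompact C) (hC : Convex ℝ C) :
    Tendsto (fun m : ℕ => ((SS C m).card : ℝ) / (m : ℝ) ^ d) atTop (𝓝 (volume.real C)) := by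
  have h := tendsto_sum hcpt hC (fun _ => 1) continuous_const
  simpa using h

end Pool.Agent.R264.Ehr
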