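import Pool.Agent.R264.Ehr.A6

/-!
# The limit `m → ∞`
-/

set_option autoImplicit false

open Finset MeasureTheory Filter Topology
open scoped Pointwise

noncomputable section

namespace Pool.Agent.R264.Ehr

variable {d : ℕ}

lemma tendsto_centre {C : Set (Fin d → ℝ)} (hcpt : IsCompact C) (hC : Convex ℝ C)
    (hpos : 0 < volume.real C) (hcen : ∀ i, ∫ x in C, x i = 0) :
    Tendsto (fun m : ℕ => (((SS C m).card * m : ℕ) : ℝ)⁻¹ • ∑ u ∈ SS C m, ir u) atTop (𝓝 0) := by
  rw [tendsto_pi_nhds]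
  intro i
  have h1 := tendsto_sum hcpt hC (fun x => x i) (continuous_apply i)
  have h2 := tendsto_card hcpt hC
  have h3 := h1.div h2 hpos.ne'
  rw [hcen i, zero_div] at h3
  refine h3.congr' ?_
  filter_upwards [eventually_gt_atTop 0] with m hm
  have hm' : (m : ℝ) ≠ 0 := by exact_mod_cast hm.ne'
  simp only [Pi.div_apply, Pi.smul_apply, smul_eq_mul, Finset.sum_apply]
  rw [← Finset.mul_sum]
  have h4 : (m : ℝ) ^ d ≠ 0 := pow_ne_zero _ hm'
  by_cases hc : ((SS C m).card : ℝ) = 0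
  · rw [hc]
    have : (SS C m).card = 0 := by exact_mod_cast hc
    rw [this]; simp
  · push_cast
    field_simp

/-- **The bound for a compact convex subset of the interior.** -/
theorem vol_le (n : ℕ) (K C : Set (Fin (n + 1) → ℝ)) (hK : Convex ℝ (interior K))
    (h0 : (0 : Fin (n + 1) → ℝ) ∈ interior K)
    (hlat : ∀ w : Fin (n + 1) → ℤ, ir w ∈ interior K → w = 0)
    (hcpt : IsCompact C) (hC : Convex ℝ C) (hpos : 0 < volume.real C)
    (hcen : ∀ i, ∫ x in C, x i = 0) (hsub : C ⊆ interior K) :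
    volume.real C ≤ (n + 2 : ℝ) ^ (n + 2) / (n + 2).factorial := by
  have hne : C.Nonempty := by
    by_contra h
    rw [Set.not_nonempty_iff_eq_empty] at h
    rw [h] at hpos
    simp at hpos
  obtain ⟨δ, hδ, hδK⟩ := hcpt.exists_thickening_subset_open isOpen_interior hsub
  have hcentre := tendsto_centre hcpt hC hpos hcen
  have hcard := tendsto_card hcpt hC
  have h1 : ∀ᶠ m : ℕ in atTop,
      ‖(((SS C m).card * m : ℕ) : ℝ)⁻¹ • ∑ u ∈ SS C m, ir u‖ < δ := by
    have := (Metric.tendsto_nhds.1 hcentre) δ hδ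
    filter_upwards [this] with m hm
    rwa [dist_zero_right] at hm
  have h2 : ∀ᶠ m : ℕ in atTop, 0 < ((SS C m).card : ℝ) / (m : ℝ) ^ (n + 1) :=
    hcard.eventually (lt_mem_nhds hpos)
  have h3 : ∀ᶠ m : ℕ in atTop, ((SS C m).card : ℝ) / (m : ℝ) ^ (n + 1) ≤
      ((n + 2 : ℝ) + (n + 1) / m) ^ (n + 2) / (n + 2).factorial := by
    filter_upwards [h1, h2, eventually_gt_atTop 0] with m hm1 hm2 hm
    have hmR : (0 : ℝ) < m := by exact_mod_cast hm
    have hS : (SS C m).Nonempty := by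
      by_contra h
      rw [Finset.not_nonempty_iff_eq_empty] at h
      rw [h] at hm2
      simp at hm2
    have h4 := latt n K C hK h0 hlat hC hne m hm (SS C m) hS
      (fun u hu => (mem_SS hcpt.isBounded hm).1 hu) (by
        intro x hx
        apply hδK
        rw [Metric.mem_thickening_iff]
        refine ⟨x, hx, ?_⟩
        rw [dist_eq_norm]
        have e : x - (((SS C m).card * m : ℕ) : ℝ)⁻¹ • ∑ u ∈ SS C m, ir u - x =
            -((((SS C m).card * m : ℕ) : ℝ)⁻¹ • ∑ u ∈ SS C m, ir u) := by abel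
        rw [e, norm_neg]
        exact hm1)
    have h5 : ((m * (SS C m).card : ℕ) : ℝ) ≤
        (((n + 2) * m + n + 1 : ℕ) : ℝ) ^ (n + 2) / (n + 2).factorial :=
      (Nat.cast_le.2 h4).trans (Nat.choose_le_pow_div _ _)
    have h6 : ((n + 2 : ℝ) + (n + 1) / m) ^ (n + 2) / (n + 2).factorial =
        ((((n + 2) * m + n + 1 : ℕ) : ℝ) ^ (n + 2) / (n + 2).factorial) / (m : ℝ) ^ (n + 2) := by
      have : (n + 2 : ℝ) + (n + 1) / m = (((n + 2) * m + n + 1 : ℕ) : ℝ) / m := by
        push_cast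
        field_simp
        ring
      rw [this, div_pow]
      ring
    rw [h6, div_le_div_iff₀ (by positivity) (by positivity)]
    have h7 : ((SS C m).card : ℝ) * (m : ℝ) ^ (n + 2) =
        ((m * (SS C m).card : ℕ) : ℝ) * (m : ℝ) ^ (n + 1) := by
      push_cast; ring
    rw [h7]
    exact mul_le_mul_of_nonneg_right h5 (by positivity)
  have h4 : Tendsto (fun m : ℕ => ((n + 2 : ℝ) + (n + 1) / m) ^ (n + 2) / (n + 2).factorial) atTop
      (𝓝 (((n + 2 : ℝ) + 0) ^ (n + 2) / (n + 2).factorial)) := by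
    refine Tendsto.div_const (Tendsto.pow (Tendsto.const_add _ ?_) _) _
    exact tendsto_const_div_atTop_nhds_zero_nat _
  rw [add_zero] at h4
  exact le_of_tendsto_of_tendsto hcard h4 h3

end Pool.Agent.R264.Ehr
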