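import Pool.Agent.R264.Ehr.A7

/-!
# Ehrhart's inequality
-/

set_option autoImplicit false

open Finset MeasureTheory Filter Topology
open scoped Pointwise

noncomputable section

namespace Pool.Agent.R264.Ehr

variable {d : ℕ}

/-- Ehrhart's inequality for the lattice `ℤ^d`, `d = n + 1`. -/
theorem ehrhart_Z (n : ℕ) (K : Set (Fin (n + 1) → ℝ)) (hK : Convex ℝ K) (hcpt : IsCompact K)
    (h0 : (0 : Fin (n + 1) → ℝ) ∈ interior K)
    (hlat : ∀ w : Fin (n + 1) → ℤ, ir w ∈ interior K → w = 0)
    (hcen : ∀ i, ∫ x in K, x i = 0) :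
    volume.real K ≤ (n + 2 : ℝ) ^ (n + 2) / (n + 2).factorial := by
  have hpos : 0 < volume.real K := by
    rw [measureReal_def]
    refine ENNReal.toReal_pos ?_ hcpt.measure_lt_top.ne
    exact ((isOpen_interior.measure_pos volume ⟨0, h0⟩).trans_le
      (measure_mono interior_subset)).ne'
  have key : ∀ t : ℝ, t ∈ Set.Ioo (0 : ℝ) 1 →
      t ^ (n + 1) * volume.real K ≤ (n + 2 : ℝ) ^ (n + 2) / (n + 2).factorial := by
    intro t ht
    have hvol : volume.real (t • K) = t ^ (n + 1) * volume.real K := by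
      rw [measureReal_def, measureReal_def, Measure.addHaar_smul, ENNReal.toReal_mul,
        ENNReal.toReal_ofReal (abs_nonneg _), Module.finrank_fin_fun,
        abs_of_pos (pow_pos ht.1 _)]
    rw [← hvol]
    refine vol_le n K (t • K) hK.interior h0 hlat (hcpt.smul t) (hK.smul t) ?_ ?_ ?_
    · rw [hvol]
      exact mul_pos (pow_pos ht.1 _) hpos
    · intro i
      have h1 := Measure.setIntegral_comp_smul volume (fun x : Fin (n + 1) → ℝ => x i) K ht.1.ne'
      have h2 : ∫ x in K, (fun x : Fin (n + 1) → ℝ => x i) (t • x) = 0 := by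
        simp only [Pi.smul_apply, smul_eq_mul]
        rw [integral_const_mul, hcen i, mul_zero]
      rw [h2] at h1
      have h3 := h1.symm
      rw [smul_eq_zero] at h3
      rcases h3 with h3 | h3
      · exfalso
        rw [abs_eq_zero, inv_eq_zero] at h3
        exact (pow_pos ht.1 _).ne' h3
      · exact h3
    · rintro _ ⟨x, hx, rfl⟩
      have := hK.combo_interior_self_mem_interior h0 hx (a := 1 - t) (b := t) (by linarith [ht.2])
        ht.1.le (by ring)
      simpa using this
  have h1 : Tendsto (fun t : ℝ => t ^ (n + 1) * volume.real K) (𝓝[<] 1)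
      (𝓝 (1 ^ (n + 1) * volume.real K)) := by
    refine Tendsto.mul_const _ ?_
    exact ((continuous_pow (n + 1)).tendsto 1).mono_left nhdsWithin_le_nhds
  rw [one_pow, one_mul] at h1
  refine le_of_tendsto h1 ?_
  filter_upwards [Ioo_mem_nhdsLT (show (0 : ℝ) < 1 by norm_num)] with t ht
  exact key t ht

end Pool.Agent.R264.Ehr
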